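import Mathlib
import Pool.Agent.R592.Ba.Final2

set_option autoImplicit false

/-!
MP_e80b9c_lc: if `BA⁻_κ` holds and `cov(M) = κ`, then either `κ < 𝔟` and every strong measure zero
set has fewer than `κ` points, or `𝔟 < κ < non(M)` with further restrictions. In particular
`BA⁻_{ℵ₁}` (and `BA`) implies `cov(M) > ℵ₁` or the Borel conjecture.
-/

namespace Pool.Agent.Results.MP_e80b9c_lc.BorelConj

open Cardinal Pool.Agent.R592.Ba

/-- Let `κ = cov(M)` and suppose that `BA⁻_κ` holds (for the Cantor space or for the real line) or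
that `BA_κ(ℝ)` holds. Then either `κ < 𝔟` and every strong measure zero subset of the Cantor
space has fewer than `κ` points, or `κ ≠ ℵ₁`, `𝔟 < κ < non(M)`, `κ ≠ 𝔡` and the cofinality of `κ`
is neither `𝔟` nor the cofinality of `𝔡`. -/
theorem result (κ : Cardinal.{0})
    (h : BAm κ (ℕ → Bool) ∨ BAm κ ℝ ∨ BA κ ℝ) (hcov : covM = κ) :
    (κ < bnum ∧ ∀ Z : Set (ℕ → Bool), SMZ Z → #Z < κ) ∨
      (κ ≠ ℵ₁ ∧ bnum < κ ∧ κ < nonM ∧ κ ≠ dnum ∧ κ.ord.cof ≠ bnum ∧
        κ.ord.cof ≠ dnum.ord.cof) := by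
  have hc : κ ≤ 𝔠 := hcov ▸ covM_le
  have h0 : ℵ₀ ≤ κ := hcov ▸ aleph0_le_covM
  have hX : BAm κ (ℕ → Bool) := bam_X_of hc h
  obtain ⟨h1, h2, h3, _⟩ := necessary κ h0 hc hX
  rcases lt_trichotomy κ bnum with hlt | heq | hgt
  · exact Or.inl ⟨hlt, smz_small h0 hlt hX hcov.le⟩
  · exact absurd (by rw [heq]; exact b_facts.2.2.1) h2
  · refine Or.inr ⟨?_, hgt, h1, ?_, h2, h3⟩
    · intro h4
      have h5 : Order.succ ℵ₀ ≤ bnum := Order.succ_le_of_lt b_facts.1
      rw [succ_aleph0, ← h4] at h5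
      exact absurd hgt (not_lt.mpr h5)
    · intro h4
      exact h3 (by rw [h4])

end Pool.Agent.Results.MP_e80b9c_lc.BorelConj
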